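import Pool.Agent.H62.Per.Defs2
import Pool.Agent.H79.Per.Cross

/-! Modules CROSS2 and LINEX of the distinct perimeters project (linear bound). -/

set_option autoImplicit false

open Finset Polynomial

namespace Pool.Agent.H63.Per

open Pool.Agent.H62.Per Pool.Agent.H79.Per

theorem cross2 (hP : PARAM) : CROSS2 := by
  intro J m fs p q h hnd hne
  obtain ⟨c0, c1, c2, ζ, -, hζ, hz⟩ := hP p q h hnd
  choose G hGd hG using fun j => branchPoly (fs j) c0 c1 c2
  have hGx : ∀ x, dd p x - dd q x = h → ∀ j, (G j).eval (ζ x) = (ζ x) ^ (2 * m j) * ev (fs j) x := by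
    intro x hx j
    rw [hG j (ζ x) (hζ x hx).1, ← (hζ x hx).2]
  have hG0 : ∀ j, G j ≠ 0 := by
    intro j h0
    obtain ⟨x, hx, hxe⟩ := hne j
    have := hGx x hx j
    rw [h0, eval_zero] at this
    have h1 := (hζ x hx).1
    exact mul_ne_zero (pow_ne_zero _ h1.ne') hxe this.symm
  set Q : ℝ[X] := ∏ j, G j with hQ
  have hQ0 : Q ≠ 0 := Finset.prod_ne_zero_iff.2 fun j _ => hG0 j
  have hQd : Q.natDegree ≤ 4 * ∑ j, m j := by
    rw [hQ, Finset.mul_sum]
    exact (natDegree_prod_le _ _).trans (Finset.sum_le_sum fun j _ => hGd j)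
  have hroots : Q.roots.toFinset.card ≤ 4 * ∑ j, m j :=
    (Multiset.toFinset_card_le _).trans ((card_roots' Q).trans hQd)
  have hQe : ∀ z, Q.eval z = ∏ j, (G j).eval z := fun z => eval_prod _ _ _
  refine ⟨?_, ?_⟩
  · intro S hS
    refine le_trans ?_ hroots
    refine Finset.card_le_card_of_injOn ζ ?_ ?_
    · intro x hx
      obtain ⟨hx1, j, hj⟩ := hS x hx
      simp only [Finset.mem_coe, Multiset.mem_toFinset]
      rw [mem_roots hQ0, IsRoot, hQe]
      refine Finset.prod_eq_zero (Finset.mem_univ j) ?_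
      rw [hGx x hx1 j, hj, mul_zero]
    · intro x hx y hy hxy
      have hx1 := (hζ x (hS x hx).1).2
      have hy1 := (hζ y (hS y hy).1).2
      rw [hx1, hy1, hxy]
  · refine ⟨fun x => (Q.roots.toFinset.filter (fun r => r < ζ x)).card, ?_, ?_⟩
    · intro x
      exact (Finset.card_le_card (Finset.filter_subset _ _)).trans hroots
    · -- main
      have key : ∀ x y, dd p x - dd q x = h → dd p y - dd q y = h → (∀ j, ev (fs j) x ≠ 0) →
        (∀ j, ev (fs j) y ≠ 0) → (Q.roots.toFinset.filter (fun r => r < ζ x)).card =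
          (Q.roots.toFinset.filter (fun r => r < ζ y)).card → ζ x ≤ ζ y →
          ∃ T : Set Pl, IsPreconnected T ∧ x ∈ T ∧ y ∈ T ∧ ∀ z ∈ T, ∀ j, ev (fs j) z ≠ 0 := by
        intro x y hx hy hxe hye hι hle
        have hsub : Q.roots.toFinset.filter (fun r => r < ζ x) ⊆
            Q.roots.toFinset.filter (fun r => r < ζ y) := by
          intro r hr
          rw [Finset.mem_filter] at hr ⊢
          exact ⟨hr.1, lt_of_lt_of_le hr.2 hle⟩
        have heq := Finset.eq_of_subset_of_card_le hsub hι.ge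
        have hzx := (hζ x hx).1
        have hzy := (hζ y hy).1
        have hno : ∀ j, ∀ z ∈ Set.Icc (ζ x) (ζ y), (G j).eval z ≠ 0 := by
          intro j z hz1 h0
          rcases hz1.2.lt_or_eq with hlt | he
          · have hzr : z ∈ Q.roots.toFinset.filter (fun r => r < ζ y) := by
              rw [Finset.mem_filter, Multiset.mem_toFinset, mem_roots hQ0, IsRoot, hQe]
              exact ⟨Finset.prod_eq_zero (Finset.mem_univ j) h0, hlt⟩
            rw [← heq, Finset.mem_filter] at hzr
            exact absurd hzr.2 (not_lt.2 hz1.1)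
          · rw [he, hGx y hy j] at h0
            exact mul_ne_zero (pow_ne_zero _ hzy.ne') (hye j) h0
        refine ⟨(fun z : ℝ => c0 + z • c1 + z⁻¹ • c2) '' Set.Icc (ζ x) (ζ y), ?_, ?_, ?_, ?_⟩
        · refine isPreconnected_Icc.image _ ?_
          have hinv : ContinuousOn (fun z : ℝ => z⁻¹) (Set.Icc (ζ x) (ζ y)) := by
            refine ContinuousOn.inv₀ continuousOn_id ?_
            intro z hz1
            exact (lt_of_lt_of_le hzx hz1.1).ne'
          have hlin : ContinuousOn (fun z : ℝ => c0 + z • c1) (Set.Icc (ζ x) (ζ y)) := by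
            fun_prop
          exact hlin.add (hinv.smul continuousOn_const)
        · exact ⟨ζ x, ⟨le_rfl, hle⟩, (hζ x hx).2.symm⟩
        · exact ⟨ζ y, ⟨hle, le_rfl⟩, (hζ y hy).2.symm⟩
        · rintro w ⟨z, hz1, rfl⟩ j h0
          have hz0 : 0 < z := lt_of_lt_of_le hzx hz1.1
          have := hG j z hz0
          simp only at h0
          rw [h0, mul_zero] at this
          exact hno j z hz1 this
      intro x y hx hy hxe hye hι
      rcases le_total (ζ x) (ζ y) with hle | hle
      · exact key x y hx hy hxe hye hι hle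
      · obtain ⟨T, h1, h2, h3, h4⟩ := key y x hy hx hye hxe hι.symm hle
        exact ⟨T, h1, h3, h2, h4⟩

/-- restriction of a polynomial to a parametrised line -/
lemma linePoly {m : ℕ} (h : Arr m) (c d : Pl) :
    ∃ G : ℝ[X], G.natDegree ≤ 2 * m ∧ ∀ z : ℝ, G.eval z = ev h (c + z • d) := by
  refine ⟨∑ i : Fin m, ∑ k : Fin m, C (h i k) * ((C c.1 + C d.1 * X) ^ (i : ℕ) *
    (C c.2 + C d.2 * X) ^ (k : ℕ)), ?_, ?_⟩
  · refine natDegree_sum_le_of_forall_le _ _ fun i _ => natDegree_sum_le_of_forall_le _ _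
      fun k _ => ?_
    have hi := i.2
    have hk := k.2
    refine (natDegree_C_mul_le _ _).trans ?_
    refine natDegree_mul_le.trans ?_
    have hl : ∀ a b : ℝ, (C a + C b * X : ℝ[X]).natDegree ≤ 1 := by
      intro a b
      compute_degree
    have h1 : ((C c.1 + C d.1 * X : ℝ[X]) ^ (i : ℕ)).natDegree ≤ i * 1 :=
      natDegree_pow_le.trans (Nat.mul_le_mul_left _ (hl _ _))
    have h2 : ((C c.2 + C d.2 * X : ℝ[X]) ^ (k : ℕ)).natDegree ≤ k * 1 :=
      natDegree_pow_le.trans (Nat.mul_le_mul_left _ (hl _ _))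
    omega
  · intro z
    simp only [eval_finsetSum, eval_mul, eval_C, eval_pow, eval_X, ev, eval_add]
    refine Finset.sum_congr rfl fun i _ => Finset.sum_congr rfl fun k _ => ?_
    simp only [Prod.fst_add, Prod.snd_add, Prod.smul_fst, Prod.smul_snd, smul_eq_mul]
    ring

theorem linex : LINEX := by
  intro J m fs u v w huv S hS hsep
  have hn : 0 < u ^ 2 + v ^ 2 := by
    rcases huv with hu | hv
    · positivity
    · positivity
  set c : Pl := (-w * u / (u ^ 2 + v ^ 2), -w * v / (u ^ 2 + v ^ 2)) with hc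
  set d : Pl := (-v, u) with hd
  set τ : Pl → ℝ := fun x => (u * x.2 - v * x.1) / (u ^ 2 + v ^ 2) with hτ
  have hτx : ∀ x, lin u v w x = 0 → x = c + τ x • d := by
    intro x hx
    unfold lin at hx
    have hw : w = -(u * x.1 + v * x.2) := by linarith
    ext
    · simp only [hc, hd, hτ, Prod.fst_add, Prod.smul_fst, smul_eq_mul]
      rw [hw]
      field_simp
      ring
    · simp only [hc, hd, hτ, Prod.snd_add, Prod.smul_snd, smul_eq_mul]
      rw [hw]
      field_simp
      ring
  choose G hGd hG using fun j => linePoly (fs j) c d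
  rcases S.eq_empty_or_nonempty with rfl | ⟨x0, hx0⟩
  · simp
  have hGx : ∀ x, lin u v w x = 0 → ∀ j, (G j).eval (τ x) = ev (fs j) x := by
    intro x hx j
    rw [hG j (τ x), ← hτx x hx]
  have hG0 : ∀ j, G j ≠ 0 := by
    intro j h0
    have := hGx x0 (hS x0 hx0).1 j
    rw [h0, eval_zero] at this
    exact (hS x0 hx0).2 j this.symm
  set Q : ℝ[X] := ∏ j, G j with hQ
  have hQ0 : Q ≠ 0 := Finset.prod_ne_zero_iff.2 fun j _ => hG0 j
  have hQd : Q.natDegree ≤ 2 * ∑ j, m j := by
    rw [hQ, Finset.mul_sum]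
    exact (natDegree_prod_le _ _).trans (Finset.sum_le_sum fun j _ => hGd j)
  have hroots : Q.roots.toFinset.card ≤ 2 * ∑ j, m j :=
    (Multiset.toFinset_card_le _).trans ((card_roots' Q).trans hQd)
  have hQe : ∀ z, Q.eval z = ∏ j, (G j).eval z := fun z => eval_prod _ _ _
  have key : ∀ x ∈ S, ∀ y ∈ S, (Q.roots.toFinset.filter (fun r => r < τ x)).card =
          (Q.roots.toFinset.filter (fun r => r < τ y)).card → τ x ≤ τ y →
          ∃ T : Set Pl, IsPreconnected T ∧ x ∈ T ∧ y ∈ T ∧ ∀ z ∈ T, ∀ j, ev (fs j) z ≠ 0 := by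
    intro x hx y hy hι hle
    have hsub : Q.roots.toFinset.filter (fun r => r < τ x) ⊆
        Q.roots.toFinset.filter (fun r => r < τ y) := by
      intro r hr
      rw [Finset.mem_filter] at hr ⊢
      exact ⟨hr.1, lt_of_lt_of_le hr.2 hle⟩
    have heq := Finset.eq_of_subset_of_card_le hsub hι.ge
    have hno : ∀ j, ∀ z ∈ Set.Icc (τ x) (τ y), (G j).eval z ≠ 0 := by
      intro j z hz1 h0
      rcases hz1.2.lt_or_eq with hlt | he
      · have hzr : z ∈ Q.roots.toFinset.filter (fun r => r < τ y) := by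
          rw [Finset.mem_filter, Multiset.mem_toFinset, mem_roots hQ0, IsRoot, hQe]
          exact ⟨Finset.prod_eq_zero (Finset.mem_univ j) h0, hlt⟩
        rw [← heq, Finset.mem_filter] at hzr
        exact absurd hzr.2 (not_lt.2 hz1.1)
      · rw [he, hGx y (hS y hy).1 j] at h0
        exact (hS y hy).2 j h0
    refine ⟨(fun z : ℝ => c + z • d) '' Set.Icc (τ x) (τ y), ?_, ?_, ?_, ?_⟩
    · refine isPreconnected_Icc.image _ ?_
      exact continuousOn_const.add (continuousOn_id.smul continuousOn_const)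
    · exact ⟨τ x, ⟨le_rfl, hle⟩, (hτx x (hS x hx).1).symm⟩
    · exact ⟨τ y, ⟨hle, le_rfl⟩, (hτx y (hS y hy).1).symm⟩
    · rintro _ ⟨z, hz1, rfl⟩ j h0
      exact hno j z hz1 ((hG j z).trans h0)
  have hinj : S.card ≤ (Finset.range (2 * ∑ j, m j + 1)).card := by
    refine Finset.card_le_card_of_injOn
      (fun x => (Q.roots.toFinset.filter (fun r => r < τ x)).card) ?_ ?_
    · intro x _
      simp only [Finset.coe_range, Set.mem_Iio]
      exact Nat.lt_succ_of_le ((Finset.card_le_card (Finset.filter_subset _ _)).trans hroots)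
    · intro x hx y hy hxy
      by_contra hne
      rcases le_total (τ x) (τ y) with hle | hle
      · exact hsep x hx y hy hne (key x hx y hy hxy hle)
      · exact hsep y hy x hx (Ne.symm hne) (key y hy x hx hxy.symm hle)
  simpa using hinj

end Pool.Agent.H63.Per
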